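import Pool.Agent.E2S.Final
import Pool.Agent.Helper32.ETT.Growth

/-!
# E-T (MP_12a1af_nt), phase 2: from dyadic blocks to all `x`
-/

open Filter

namespace Pool.Agent.Helper32.E2T

/-- powers of the logarithm are small -/
theorem exists_log_small (b : ℕ) : ∃ K1 : ℕ, ∀ K, K1 ≤ K →
    b * (Nat.log 2 K + 1) ^ 3 ≤ K / 2 := by
  have h1 : Tendsto (fun n : ℕ => ((n : ℝ) ^ 3) / (2 : ℝ) ^ n) atTop (nhds 0) :=
    tendsto_pow_const_div_const_pow_of_one_lt 3 (by norm_num)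
  have h2 : ∀ᶠ n : ℕ in atTop, ((n : ℝ) ^ 3) / (2 : ℝ) ^ n < 1 / (4 * (b + 1)) :=
    h1.eventually_lt_const (by positivity)
  obtain ⟨L0, hL0⟩ := eventually_atTop.1 h2
  refine ⟨2 ^ (L0 + 1), fun K hK => ?_⟩
  set L := Nat.log 2 K with hL
  have hK0 : K ≠ 0 := by
    have : 0 < 2 ^ (L0 + 1) := by positivity
    omega
  have hL1 : L0 + 1 ≤ L := (Nat.le_log_iff_pow_le (by norm_num) hK0).2 hK
  have h3 := hL0 (L + 1) (by omega)
  have h4 : (4 * (b : ℝ)) * ((L + 1 : ℕ) : ℝ) ^ 3 ≤ (2 : ℝ) ^ (L + 1) := by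
    have hp : (0 : ℝ) < (2 : ℝ) ^ (L + 1) := by positivity
    rw [div_lt_iff₀ hp] at h3
    have hb : (0 : ℝ) < 4 * ((b : ℝ) + 1) := by positivity
    have h5 : (4 * ((b : ℝ) + 1)) * ((L + 1 : ℕ) : ℝ) ^ 3 < (2 : ℝ) ^ (L + 1) := by
      calc (4 * ((b : ℝ) + 1)) * ((L + 1 : ℕ) : ℝ) ^ 3
          < (4 * ((b : ℝ) + 1)) * (1 / (4 * (b + 1)) * (2 : ℝ) ^ (L + 1)) :=
            mul_lt_mul_of_pos_left h3 hb
        _ = (2 : ℝ) ^ (L + 1) := by field_simp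
    have h6 : (0 : ℝ) ≤ ((L + 1 : ℕ) : ℝ) ^ 3 := by positivity
    nlinarith
  have h5 : 4 * b * (L + 1) ^ 3 ≤ 2 ^ (L + 1) := by exact_mod_cast h4
  have h6 : 2 ^ L ≤ K := Nat.pow_log_le_self 2 hK0
  have h7 : 2 ^ (L + 1) = 2 * 2 ^ L := by ring
  have h8 : 2 * (b * (L + 1) ^ 3) ≤ K := by
    have : 4 * b * (L + 1) ^ 3 = 2 * (2 * (b * (L + 1) ^ 3)) := by ring
    omega
  omega

/-- **The thickness.** -/
theorem thickPart : Pool.Agent.E2S.ThickPart := by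
  intro A K0 b h
  obtain ⟨K1, hK1⟩ := exists_log_small (b + 8)
  obtain ⟨B, hB, hB2⟩ := Pool.Agent.Helper32.ETT.thick_of_blocks A (max K0 (max K1 1)) (b + 8) 3
    (fun K hK => by
      have hK0 : K0 ≤ K := le_trans (le_max_left _ _) hK
      have hK1' : K1 ≤ K := le_trans (le_trans (le_max_left _ _) (le_max_right _ _)) hK
      have hK2 : 1 ≤ K := le_trans (le_trans (le_max_right _ _) (le_max_right _ _)) hK
      refine le_trans ?_ (h K hK0)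
      have h1 := hK1 K hK1'
      unfold Pool.Agent.E2S.cntF
      set L := Nat.log 2 K with hL
      have h2 : (b + 8) * (L + 1) ^ 3 = b * (L + 1) ^ 3 + 8 * (L + 1) ^ 3 := by ring
      have h3 : L + 1 ≤ (L + 1) ^ 3 := Nat.le_self_pow (by norm_num) _
      obtain ⟨m, hm⟩ : ∃ m, K / 2 - b * (L + 1) ^ 3 = (L + 3) + (m + 1) := by
        refine ⟨K / 2 - b * (L + 1) ^ 3 - (L + 3) - 1, ?_⟩
        omega
      have h4 : K < 2 ^ (L + 1) := Nat.lt_pow_succ_log_self (by norm_num) K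
      have h5 : 4 * K ≤ 2 ^ (L + 3) := by
        have : 2 ^ (L + 3) = 4 * 2 ^ (L + 1) := by ring
        omega
      have h6 : 2 ^ (m + 1) ≤ 2 ^ (K / 2 - b * (L + 1) ^ 3) / (4 * K) := by
        rw [Nat.le_div_iff_mul_le (by omega), hm, mul_comm, pow_add 2 (L + 3) (m + 1)]
        exact Nat.mul_le_mul_right _ h5
      have h7 : 2 ^ (K / 2 - (b + 8) * (L + 1) ^ 3) ≤ 2 ^ m :=
        Nat.pow_le_pow_right (by norm_num) (by omega)
      have h8 : 2 ^ (m + 1) = 2 ^ m + 2 ^ m := by ring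
      have h9 : 1 ≤ 2 ^ m := Nat.one_le_two_pow
      omega)
  exact ⟨B, hB, hB2⟩

end Pool.Agent.Helper32.E2T
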