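import Mathlib
import Pool.Agent.Helper83.E2.Mk2
import Pool.Agent.Helper32.ETT.Codes

/-!
# E-T (MP_12a1af_nt), phase 2: sizes of the regions for the codes `mk2`
-/

open Finset

namespace Pool.Agent.Helper32.E2T

open Pool.Agent.ETS Pool.Agent.Helper83.ET Pool.Agent.ETP Pool.Agent.Helper83.E2
open Pool.Agent.Helper32.ETT
open Pool.Agent.Helper29.ETK (CC lg kk)
open Pool.Agent.Helper29.E2 (ep Wd hh ll)
open Pool.Agent.E2 (comp Codes2 Reg2 Rg setRg blkRg cellRg zoneRg rgOf)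

/-! ### lists of regions -/

theorem chain_sum {K : ℕ} : ∀ {l : List Rg} {u : ℕ}, Pool.Agent.E2.Chain u l K →
    u + (l.map Rg.len).sum = K
  | [], u, h => by
    have h' : u = K := h
    simp [h']
  | r :: l, u, h => by
    obtain ⟨h1, h2, h3⟩ := h
    have h4 := chain_sum h3
    have h5 : r.len = r.top - r.bot := rfl
    rw [List.map_cons, List.sum_cons, h5]
    omega

theorem prod_sq2 {q : ℕ} : ∀ (l : List Rg), (∀ r ∈ l, Dft q r.len r.V) →
    2 ^ (l.map Rg.len).sum ≤ (2 ^ (q * l.length) * (l.map fun r => r.V.card).prod) ^ 2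
  | [], _ => by simp
  | r :: l, h => by
    have h1 := prod_sq2 l fun r' hr' => h r' (by simp [hr'])
    have h2 : 2 ^ r.len ≤ (2 ^ q * r.V.card) ^ 2 := h r (by simp)
    rw [List.map_cons, List.sum_cons, List.map_cons, List.prod_cons, List.length_cons, pow_add]
    calc 2 ^ r.len * 2 ^ (l.map Rg.len).sum
        ≤ (2 ^ q * r.V.card) ^ 2 * (2 ^ (q * l.length) * (l.map fun r => r.V.card).prod) ^ 2 :=
          Nat.mul_le_mul h2 h1
      _ = (2 ^ (q * (l.length + 1)) * (r.V.card * (l.map fun r => r.V.card).prod)) ^ 2 := by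
          rw [mul_add, mul_one, pow_add]; ring

/-- **thickness of a list of regions** -/
theorem cnt_le2 {K q n : ℕ} {l : List Rg} (H : Pool.Agent.E2.Chain 0 l K) (hn : l.length ≤ n)
    (h : ∀ r ∈ l, Dft q r.len r.V) :
    2 ^ (K / 2 - q * n) ≤ (l.map fun r => r.V.card).prod := by
  have h1 := chain_sum H
  have h2 := prod_sq2 l h
  rw [zero_add] at h1
  rw [h1] at h2
  set X := (l.map fun r => r.V.card).prod with hX
  have hpos : 0 < X := by
    rcases Nat.eq_zero_or_pos X with h0 | h0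
    · rw [h0] at h2
      simp at h2
    · exact h0
  have hqn : q * l.length ≤ q * n := Nat.mul_le_mul_left _ hn
  refine le_trans (Nat.pow_le_pow_right (by norm_num) (show K / 2 - q * n ≤ K / 2 - q * l.length by
    omega)) ?_
  rcases Nat.lt_or_ge (K / 2) (q * l.length) with h3 | h3
  · rw [Nat.sub_eq_zero_of_le h3.le, pow_zero]
    exact hpos
  · have h4 : (2 ^ (q * l.length) * 2 ^ (K / 2 - q * l.length)) ^ 2 ≤
        (2 ^ (q * l.length) * X) ^ 2 := by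
      refine le_trans ?_ h2
      rw [← pow_add, ← pow_mul]
      exact Nat.pow_le_pow_right (by norm_num) (by omega)
    have h5 := (Nat.pow_le_pow_iff_left (by norm_num)).1 h4
    exact Nat.le_of_mul_le_mul_left h5 (by positivity)

/-! ### concatenations -/

theorem dft_cat {q l n : ℕ} {S : Finset ℕ} (hS : ∀ s ∈ S, s < 2 ^ l) (h : Dft q l S) :
    Dft (q * n) (l * n) (cat l S n) := by
  unfold Dft at *
  rw [card_cat hS]
  calc 2 ^ (l * n) = (2 ^ l) ^ n := pow_mul _ _ _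
    _ ≤ ((2 ^ q * S.card) ^ 2) ^ n := Nat.pow_le_pow_left h n
    _ = (2 ^ (q * n) * S.card ^ n) ^ 2 := by
      rw [pow_mul 2 q n, ← mul_pow, ← pow_mul, ← pow_mul, mul_comm 2 n]

/-! ### the codes -/

/-- the constant of the defects -/
def qq (c : ℕ) : ℕ := 2 ^ 18 * (32 * n1 c ^ 2 + 8) + (6 * CC c ^ 13 + 40)

/-- the defect of all sets up to scale `K` -/
def dq2 (c K : ℕ) : ℕ := qq c * (Nat.log 2 K + 1) ^ 2

theorem one_le_sq (K : ℕ) : 1 ≤ (Nat.log 2 K + 1) ^ 2 := Nat.one_le_pow _ _ (by omega)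

theorem dq_le (c K : ℕ) : dq (CC c) K ≤ dq2 c K := by
  unfold dq dq2 qq
  exact Nat.mul_le_mul_right _ (by omega)

theorem forty_le (c K : ℕ) : 40 ≤ dq2 c K := by
  unfold dq2 qq
  calc 40 ≤ (2 ^ 18 * (32 * n1 c ^ 2 + 8) + (6 * CC c ^ 13 + 40)) * 1 := by omega
    _ ≤ _ := Nat.mul_le_mul_left _ (one_le_sq K)

/-- the sets of the contents of the small cells are large -/
def SdBig (Sd : ℕ → Finset ℕ) : Prop := ∀ l, 2 ∣ l → 4 ≤ l → 2 ^ (l / 2) ≤ 2 ^ 4 * (Sd l).card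

theorem dft_Sd {Sd : ℕ → Finset ℕ} (h : SdBig Sd) {l : ℕ} (h2 : 2 ∣ l) (hl : 4 ≤ l) :
    Dft 5 l (Sd l) := Dft.of_half (h l h2 hl)

section

variable {c : ℕ} {Sd TK : ℕ → Finset ℕ}

/-- defect of the mid cells -/
def dm (c K : ℕ) : ℕ := 2 * (16 * n1 c ^ 2 + 1) + Nat.log 2 K + 6

theorem dft_Th1 (hc : 20 ≤ c) (hS : SdOK Sd) {e K : ℕ} (he : 40 ≤ e) (hK : hh c e ≤ K) :
    Dft (dm c K) (hh c e) ((mk2 c Sd TK).Th1 e) := by
  have h1 := (mk2_loc1 (TK := TK) hc hS he).Th_large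
  rw [← hh_eq hc (by omega)] at h1
  exact dft_VZ_aux hK h1 le_rfl

theorem dft_T1 (hc : 20 ≤ c) (hS : SdOK Sd) {e : ℕ} (he : 40 ≤ e) :
    Dft 10 (hh c e) ((mk2 c Sd TK).T1 e) := by
  have h1 := (mk2_loc1 (TK := TK) hc hS he).T_card
  have h2 := ll_even hc he
  rw [← hh_eq hc (by omega)] at h1
  have h3 : 2 ∣ hh c e := by
    rw [hh_eq hc (by omega)]
    exact Dvd.dvd.mul_right h2 _
  unfold Dft
  rw [h1]
  calc 2 ^ (hh c e) ≤ 2 ^ (2 * (10 + (hh c e / 2 - 10))) :=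
        Nat.pow_le_pow_right (by norm_num) (by omega)
    _ = (2 ^ 10 * 2 ^ (hh c e / 2 - 10)) ^ 2 := by rw [← pow_add, ← pow_mul, mul_comm]

theorem ll_pos (c e : ℕ) : 0 < ll c e := by
  unfold ll
  positivity

theorem eight_le_ll (hc : 20 ≤ c) {e : ℕ} (he : 40 ≤ e) : 8 ≤ ll c e :=
  le_trans (by norm_num) (ll_ge hc he)

theorem four_le_ll (hc : 20 ≤ c) {e : ℕ} (he : 40 ≤ e) : 4 ≤ ll c e :=
  le_trans (by norm_num) (ll_ge hc he)

theorem dft_C1 (hc : 20 ≤ c) (hS : SdOK Sd) (hB : SdBig Sd) {e : ℕ} (he : 40 ≤ e) :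
    Dft (5 * n1 c) (hh c e) (C1s c Sd e) := by
  have h2 := ll_even hc he
  have hdiv : hh c e / ll c e = n1 c := by
    rw [hh_eq hc (by omega)]
    exact Nat.mul_div_cancel_left _ (ll_pos c e)
  unfold C1s
  rw [comp_eq_cat, hdiv, hh_eq hc (by omega)]
  exact dft_cat (hS.lt _ h2 (eight_le_ll hc he)) (dft_Sd hB h2 (four_le_ll hc he))

theorem pow_eq_hh {e : ℕ} (hk : 4 * c ≤ kk e + 10) (hc : 20 ≤ c) (he : 40 ≤ e) :
    CC c ^ e = hh c e * 2 ^ (kk e + 10 - 4 * c) := by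
  unfold CC hh
  rw [← pow_mul, ← pow_add]
  congr 1
  have hkk := kk_le (show 9 ≤ e by omega)
  have h1 : c * (e + 4) = c * e + 4 * c := by ring
  have h2 : 20 * e ≤ c * e := Nat.mul_le_mul_right _ hc
  omega

theorem two_pow_kk_le (e : ℕ) : 2 ^ kk e ≤ 16 * (3 * e + 10) := by
  unfold kk
  have h1 : Nat.clog 2 (8 * (3 * e + 10)) ≠ 0 := by
    have : 0 < Nat.clog 2 (8 * (3 * e + 10)) := Nat.clog_pos (by norm_num) (by omega)
    omega
  have h2 := Nat.pow_pred_clog_lt_self (b := 2) (by norm_num)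
    (show 1 < 8 * (3 * e + 10) by omega)
  obtain ⟨m, hm⟩ : ∃ m, Nat.clog 2 (8 * (3 * e + 10)) = m + 1 := ⟨_, (Nat.succ_pred h1).symm⟩
  rw [hm] at h2 ⊢
  rw [Nat.pred_succ] at h2
  rw [pow_succ]
  omega

theorem dft_C2 (hc : 20 ≤ c) (hS : SdOK Sd) {e K : ℕ} (he : 40 ≤ e) (hk : 4 * c ≤ kk e + 10)
    (hK : CC c ^ e ≤ K) : Dft (dq2 c K) (CC c ^ e) (C2s c Sd e) := by
  have h1 := loc1_ok hc he hS
  have hlt : ∀ t ∈ (loc1 c Sd e).2, t < 2 ^ hh c e := by
    rw [hh_eq hc (by omega)]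
    exact h1.Th_lt
  have hhp := hh_pos c e
  have hpow := pow_eq_hh hk hc he
  set n2 := 2 ^ (kk e + 10 - 4 * c) with hn2
  have hn2p : 0 < n2 := by positivity
  have hhK : hh c e ≤ K := by
    calc hh c e = hh c e * 1 := (mul_one _).symm
      _ ≤ hh c e * n2 := Nat.mul_le_mul_left _ hn2p
      _ = CC c ^ e := hpow.symm
      _ ≤ K := hK
  have hdiv : CC c ^ e / hh c e = n2 := by
    rw [hpow]
    exact Nat.mul_div_cancel_left _ hhp
  have h2 : Dft (dm c K * n2) (CC c ^ e) (C2s c Sd e) := by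
    unfold C2s
    rw [comp_eq_cat, hdiv]
    conv => arg 2; rw [hpow]
    exact dft_cat hlt (dft_Th1 (TK := fun _ => ∅) hc hS he hhK)
  refine h2.mono ?_
  have hK0 : K ≠ 0 := by
    have : 0 < CC c ^ e := by
      unfold CC
      positivity
    omega
  have h3 : e ≤ Nat.log 2 K := by
    rw [Nat.le_log_iff_pow_le (by norm_num) hK0]
    refine le_trans (Nat.pow_le_pow_left ?_ e) hK
    exact le_trans (by norm_num) (CC_ge2 hc)
  set L := Nat.log 2 K + 1 with hL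
  have h4 : n2 ≤ 2 ^ 18 * L := by
    calc n2 ≤ 2 ^ (kk e + 10) := Nat.pow_le_pow_right (by norm_num) (by omega)
      _ = 2 ^ kk e * 2 ^ 10 := pow_add _ _ _
      _ ≤ 16 * (3 * e + 10) * 2 ^ 10 := Nat.mul_le_mul_right _ (two_pow_kk_le e)
      _ ≤ 2 ^ 18 * L := by omega
  have h5 : dm c K ≤ (32 * n1 c ^ 2 + 8) * L := by
    unfold dm
    have : 1 ≤ L := by omega
    nlinarith
  calc dm c K * n2 ≤ (32 * n1 c ^ 2 + 8) * L * (2 ^ 18 * L) := Nat.mul_le_mul h5 h4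
    _ = 2 ^ 18 * (32 * n1 c ^ 2 + 8) * L ^ 2 := by ring
    _ ≤ dq2 c K := by
      unfold dq2 qq
      exact Nat.mul_le_mul_right _ (by omega)

theorem dm_le (c K : ℕ) : dm c K ≤ dq2 c K := by
  unfold dm dq2 qq
  have h1 := one_le_sq K
  have h2 : Nat.log 2 K + 1 ≤ (Nat.log 2 K + 1) ^ 2 := Nat.le_self_pow (by norm_num) _
  generalize (Nat.log 2 K + 1) ^ 2 = Y at h1 h2 ⊢
  generalize n1 c ^ 2 = X
  calc 2 * (16 * X + 1) + Nat.log 2 K + 6 ≤ (32 * X + 8) * 1 + Y := by omega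
    _ ≤ (32 * X + 8) * Y + Y := Nat.add_le_add_right (Nat.mul_le_mul_left _ h1) _
    _ = (32 * X + 9) * Y := by ring
    _ ≤ _ := Nat.mul_le_mul_right _ (by omega)

theorem n1_le_qq (c : ℕ) : 5 * n1 c ≤ qq c := by
  unfold qq
  have : n1 c ≤ n1 c ^ 2 := Nat.le_self_pow (by norm_num) _
  omega

/-! ### the regions -/

/-- well placed regions below the zone -/
def RegOk2 (c K : ℕ) : Reg2 → Prop
  | .old r => RegOk (CC c) K r ∧ (∀ e b v, r = Reg.RT e b v → 40 ≤ e) ∧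
      (∀ e b v, r = Reg.RTh e b v → 40 ≤ e) ∧ (∀ p e f b, r = Reg.PT p e f b → 40 ≤ e)
  | .cell l _ => 2 ∣ l ∧ 8 ≤ l
  | .mid e s => 40 ≤ e ∧ s + hh c e ≤ K
  | .T1 e _ => 40 ≤ e
  | .C1 e _ => 40 ≤ e
  | .C2 e s => 40 ≤ e ∧ 4 * c ≤ kk e + 10 ∧ s + CC c ^ e ≤ K
  | .zone _ _ _ => False

theorem mkT_dft_reg (hc : 20 ≤ c) (hS : SdOK Sd) {K : ℕ} {r : Reg} (h : RegOk2 c K (.old r)) :
    Dft (2 * dq (CC c) K) (r.top (mk2 c Sd TK).toCodes - r.bot) (r.V (mk2 c Sd TK).toCodes) := by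
  have hC := CC_ge2 hc
  have h2 := CC_even2 hc
  obtain ⟨h, hRT, hRTh, hPT⟩ := h
  have hC256 : 256 ≤ CC c := le_trans (by norm_num) hC
  have e2 : 2 * dq (CC c) K = dq (CC c) K + dq (CC c) K := two_mul _
  have e1 : dq (CC c) K ≤ 2 * dq (CC c) K := by omega
  have hT : ∀ e, 40 ≤ e → Dft (dq (CC c) K) (CC c ^ e) ((mk2 c Sd TK).T e) := by
    intro e he
    refine (dft_T h2 (by omega) (mk2_loc2 (TK := TK) hc hS he).toLocGood).mono ?_
    unfold dq
    have : 1 ≤ (Nat.log 2 K + 1) ^ 2 := Nat.one_le_pow _ _ (by omega)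
    calc 10 ≤ (6 * CC c ^ 13 + 30) * 1 := by omega
      _ ≤ (6 * CC c ^ 13 + 30) * (Nat.log 2 K + 1) ^ 2 := Nat.mul_le_mul_left _ this
  have hTh : ∀ e, 40 ≤ e → CC c ^ e ≤ K → Dft (dq (CC c) K) (CC c ^ e) ((mk2 c Sd TK).Th e) :=
    fun e he hK => dft_Th (le_trans (by norm_num) hC) hK
      (mk2_loc2 (TK := TK) hc hS he).toLocGood
  cases r with
  | P p f b => exact (dft_P (C := (mk2 c Sd TK).toCodes)
      (dft_X hC256 p (show b - f ≤ K by have := h.2; omega))).mono e1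
  | PT p e f b =>
    obtain ⟨h1, h3, h4⟩ := h
    rw [e2]
    exact dft_PT (C := (mk2 c Sd TK).toCodes) h1 (dft_X hC256 p (show b - f ≤ K by omega))
      (hT e (hPT p e f b rfl))
  | R b v =>
    obtain ⟨h1, h3⟩ := h
    exact (dft_R (C := (mk2 c Sd TK).toCodes) (dft_Y h3 (show v - b ≤ K by omega))).mono e1
  | RT e b v =>
    obtain ⟨h1, h3, h4, h5⟩ := h
    rw [e2]
    exact dft_RT (C := (mk2 c Sd TK).toCodes) h3
      (dft_Y h5 (show v - b - CC c ^ e ≤ K by omega)) (hT e (hRT e b v rfl))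
  | RTh e b v =>
    obtain ⟨h1, h3, h4, h5⟩ := h
    rw [e2]
    exact dft_RTh (C := (mk2 c Sd TK).toCodes) h3
      (dft_Y h5 (show v - b - CC c ^ e ≤ K by omega)) (hTh e (hRTh e b v rfl) (by omega))
  | win a K' => exact absurd h id
  | winC e a h' K' => exact absurd h id

theorem len_add (s l : ℕ) : s + l - s = l := by omega

/-- **the defect of the regions below the zone** -/
theorem dft_reg2 (hc : 20 ≤ c) (hS : SdOK Sd) (hB : SdBig Sd) {K : ℕ} {r : Reg2}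
    (h : RegOk2 c K r) : Dft (2 * dq2 c K) (r.rg (mk2 c Sd TK)).len (r.rg (mk2 c Sd TK)).V := by
  have h40 := forty_le c K
  cases r with
  | old r =>
    refine (mkT_dft_reg (TK := TK) hc hS h).mono ?_
    have := dq_le c K
    omega
  | cell l s =>
    have e1 : ((Reg2.cell l s).rg (mk2 c Sd TK)).len = l := len_add s l
    rw [e1]
    exact (dft_Sd hB h.1 (le_trans (by norm_num) h.2)).mono (by omega)
  | mid e s =>
    have e1 : ((Reg2.mid e s).rg (mk2 c Sd TK)).len = hh c e := len_add s _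
    rw [e1]
    refine (dft_Th1 (TK := TK) hc hS (K := K) h.1 ?_).mono ?_
    · have := h.2
      omega
    · have := dm_le c K
      omega
  | T1 e s =>
    have e1 : ((Reg2.T1 e s).rg (mk2 c Sd TK)).len = hh c e := len_add s _
    rw [e1]
    exact (dft_T1 (TK := TK) hc hS h).mono (by omega)
  | C1 e s =>
    have e1 : ((Reg2.C1 e s).rg (mk2 c Sd TK)).len = hh c e := len_add s _
    rw [e1]
    refine (dft_C1 hc hS hB h).mono ?_
    have h1 := n1_le_qq c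
    have h2 : qq c ≤ dq2 c K := Nat.le_mul_of_pos_right _ (one_le_sq K)
    omega
  | C2 e s =>
    have e1 : ((Reg2.C2 e s).rg (mk2 c Sd TK)).len = CC c ^ e := len_add s _
    rw [e1]
    refine (dft_C2 hc hS (K := K) h.1 h.2.1 ?_).mono (by omega)
    have := h.2.2
    omega
  | zone l s K' => exact absurd h id

/-- the defect of the zone -/
theorem dft_zone (hB : SdBig Sd) {K l s : ℕ} (h2 : 2 ∣ l) (hl : 4 ≤ l) (hs : s + l ≤ K)
    (hT : 2 ^ ((K - (s + l)) / 2) ≤ 2 ^ 4 * (TK K).card) :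
    Dft (2 * dq2 c K) ((Reg2.zone l s K).rg (mk2 c Sd TK)).len
      ((Reg2.zone l s K).rg (mk2 c Sd TK)).V := by
  have h40 := forty_le c K
  have e1 : ((Reg2.zone l s K).rg (mk2 c Sd TK)).len = l + (K - (s + l)) := by
    show K - s = l + (K - (s + l))
    omega
  rw [e1]
  exact (Dft.mul (dft_Sd hB h2 hl) (Dft.of_half hT)).mono (by omega)

end

end Pool.Agent.Helper32.E2T
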