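import Mathlib
import Pool.Agent.Helper32.E2.Size
import Pool.Agent.Helper29.E2.Basic
import Pool.Agent.Helper29.E2.Kinds
import Pool.Agent.E2S.FinalDefs

/-!
# E-T (MP_12a1af_nt), phase 2: sizes of the regions of the layouts

Main theorem: `cnt_lay`, the number of elements of a scale.
-/

set_option autoImplicit false

open Finset

namespace Pool.Agent.Helper32.E2T

open Pool.Agent.ETS (Reg runs IsRun isRun_of_mem')
open Pool.Agent.Helper83.E2 (mk2 SdOK n1 ll_even)
open Pool.Agent.ETP Pool.Agent.Helper32.ETT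
open Pool.Agent.Helper29.ETK (CC lg kk Kid lg_le pow_le)
open Pool.Agent.Helper29.E2
open Pool.Agent.E2 (Codes2 Reg2 Rg layL body zoneReg toRegs toRegs2 pidx lay Chain)
open Pool.Agent.E2S (cntF lenF)

variable {c t : ℕ}

theorem four_le_CC2 (hc : 20 ≤ c) : 2 ^ 20 ≤ CC c :=
  Nat.pow_le_pow_right (by norm_num) hc

theorem zero_or_ge2 {C e x : ℕ} (hC : 4 ≤ C) (he : 1 ≤ e) (h : C ^ e ∣ x) : x = 0 ∨ 4 ≤ x := by
  rcases Nat.eq_zero_or_pos x with h0 | h0
  · exact Or.inl h0
  · right
    have h1 := Nat.le_of_dvd h0 h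
    have h2 : C ^ 1 ≤ C ^ e := Nat.pow_le_pow_right (by omega) he
    rw [pow_one] at h2
    omega

theorem pow_le_pos2 {s n : ℕ} (h1 : CC c ^ (n + 4) ≤ t) (h2 : t ≤ CC c ^ 4 * s) :
    CC c ^ n ≤ s := by
  have h0 : 0 < CC c := by unfold CC; positivity
  have : CC c ^ 4 * CC c ^ n ≤ CC c ^ 4 * s := by
    rw [← pow_add]
    calc CC c ^ (4 + n) = CC c ^ (n + 4) := by ring_nf
      _ ≤ t := h1
      _ ≤ _ := h2
  exact Nat.le_of_mul_le_mul_left this (by positivity)

theorem le_ep2 {s e1 : ℕ} (hc : 20 ≤ c) (h : CC c ^ (2 * e1) ≤ s) : e1 ≤ ep c s := by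
  have hC := four_le_CC2 hc
  unfold ep lg
  have h4 : 2 * e1 ≤ Nat.log (CC c) s := Nat.le_log_of_pow_le (by omega) h
  omega

theorem le_epo2 {e1 : ℕ} (hc : 20 ≤ c) (h : CC c ^ (2 * e1 + 4) ≤ t) : e1 + 1 ≤ epo c t := by
  have hC := four_le_CC2 hc
  unfold epo lg
  have h4 : 2 * e1 + 4 ≤ Nat.log (CC c) t := Nat.le_log_of_pow_le (by omega) h
  omega

theorem kk_large {e : ℕ} (h : 2 ^ (4 * c) ≤ e) : 4 * c ≤ kk e + 10 := by
  have h1 : 4 * c ≤ kk e := by
    unfold kk
    have h2 : e ≤ 2 ^ Nat.clog 2 (8 * (3 * e + 10)) :=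
      le_trans (by omega) (Nat.le_pow_clog (by norm_num) _)
    exact (Nat.pow_le_pow_iff_right (by norm_num)).1 (h.trans h2)
  omega

theorem kid2_lt {s : ℕ} (h : s < wb c t) : kid2 c t s = .old (kid c t s) := if_pos h

theorem kid2_old {s : ℕ} {k : Kid} (h : kid2 c t s = .old k) : s < wb c t ∧ kid c t s = k := by
  by_cases hs : s < wb c t
  · rw [kid2_lt hs] at h
    exact ⟨hs, Kid2.old.inj h⟩
  · exfalso
    unfold kid2 at h
    rw [if_neg hs] at h
    unfold kidU kidB at h
    split_ifs at h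

/-- the first and the last position of a run -/
theorem run2_P (H : KidOK c t) {w s e g : ℕ} (hw : w ≤ wb c t)
    (h : IsRun (kid c t) 0 w (.P g, s, e)) : s = g := by
  obtain ⟨-, h2, h3, h4, h5, -⟩ := h
  simp only at h2 h3 h4 h5
  obtain ⟨h6, h7⟩ := H.P s g (by omega) (h4 s le_rfl h2)
  rcases h5 with h5 | h5
  · omega
  · by_contra hne
    apply h5
    rcases Nat.eq_zero_or_pos s with h0 | h0
    · omega
    · exact h7 (s - 1) (by omega) (by omega)

theorem run2_R (H : KidOK c t) {w s e v : ℕ} (hw : w ≤ wb c t)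
    (h : IsRun (kid c t) 0 w (.R v, s, e)) (hv : v ≤ w) : e = v := by
  obtain ⟨-, h2, h3, h4, h5, h6⟩ := h
  simp only at h2 h3 h4 h5 h6
  obtain ⟨h7, h8, h9⟩ := H.R s v (by omega) (h4 s le_rfl h2)
  apply le_antisymm
  · by_contra hne
    push Not at hne
    have := (H.R v v (by omega) (h4 v (by omega) hne)).1
    omega
  · rcases h6 with h6 | h6
    · omega
    · by_contra hne
      push Not at hne
      exact h6 (h9 e (by omega) hne)

/-- the regions below `wb` are well placed -/
theorem regOk_old {e1 : ℕ} (hc : 20 ≤ c) (h40 : 40 ≤ e1) (H : KidOK c t) (HS : KidSize c t)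
    (ht : CC c ^ (2 * e1 + 4) ≤ t) {k : Kid} {s e : ℕ}
    (hrun : IsRun (kid c t) 0 (wb c t) (k, s, e)) {r : Reg} (hr : r ∈ toRegs c t (k, s, e)) :
    RegOk2 c t (.old r) := by
  have hC20 := four_le_CC2 hc
  have hCp : 0 < CC c := by omega
  have hwt := H.wbt
  have hep : ∀ s, t ≤ CC c ^ 4 * s → e1 ≤ ep c s := fun s hs => le_ep2 hc (pow_le_pos2 ht hs)
  have hr' := hrun
  obtain ⟨-, h2, h3, h4, h5, h6'⟩ := hr'
  simp only at h2 h3 h4 h5 h6'
  have hk := h4 s le_rfl h2
  have hcut : KCut c t s := by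
    rcases h5 with h5 | h5
    · exact Or.inl h5
    · exact Or.inr (Or.inr (by rw [hk]; exact h5))
  cases k with
  | P g =>
    have := run2_P H le_rfl hrun
    subst this
    simp only [toRegs, List.mem_singleton] at hr
    subst hr
    exact ⟨⟨h2.le, by omega⟩, fun _ _ _ h => by simp at h, fun _ _ _ h => by simp at h,
      fun _ _ _ _ h => by simp at h⟩
  | PT g b =>
    obtain ⟨h7, h8, h9, h10, h11, h12, h13⟩ := H.PT s g b (by omega) hk
    obtain ⟨d1, d2, d3, d4⟩ := HS.PT g b s (by omega) hk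
    have he := hep b d4
    have hW : Wd c b = CC c ^ ep c b := rfl
    have hmain : RegOk2 c t (.old (Reg.PT (pidx c g) (ep c b) g b)) := by
      refine ⟨⟨h7, by rw [← hW]; omega, by omega⟩, fun _ _ _ h => by simp at h,
        fun _ _ _ h => by simp at h, fun _ e _ _ h => ?_⟩
      simp only [Reg.PT.injEq] at h
      omega
    simp only [toRegs] at hr
    split_ifs at hr
    · rw [List.mem_cons, List.mem_singleton] at hr
      rcases hr with rfl | rfl
      · exact hmain
      · exact ⟨⟨by omega, Or.inl (Nat.sub_self _)⟩, fun _ _ _ h => by simp at h,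
          fun _ _ _ h => by simp at h, fun _ _ _ _ h => by simp at h⟩
    · rw [List.mem_singleton] at hr
      subst hr
      exact hmain
  | R v =>
    obtain ⟨h6, h7, h8⟩ := H.R s v (by omega) hk
    have he := run2_R H le_rfl hrun h7
    simp only [toRegs, List.mem_singleton] at hr
    subst hr
    refine ⟨⟨by omega, ?_⟩, fun _ _ _ h => by simp at h, fun _ _ _ h => by simp at h,
      fun _ _ _ _ h => by simp at h⟩
    rcases Nat.eq_zero_or_pos s with h0 | h0
    · right
      have hcv : KCut c t v := by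
        rcases h6' with h6' | h6'
        · exact Or.inr (Or.inl (by omega))
        · refine Or.inr (Or.inr ?_)
          intro h
          apply h6'
          rw [he, ← h]
          exact h8 (v - 1) (by omega) (by omega)
      have h9 := HS.low v (by omega) h7 hcv
      have h10 := pow_le_pos2 (n := 2 * e1) ht h9
      have h11 : CC c ^ 1 ≤ CC c ^ (2 * e1) := Nat.pow_le_pow_right hCp (by omega)
      rw [pow_one] at h11
      omega
    · obtain ⟨d1, d2⟩ := HS.R v s (by omega) hk hcut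
      have h9 := HS.low s h0 (by omega) hcut
      have h10 := pow_le_pos2 (n := 2 * e1) ht h9
      have h11 : CC c ^ (2 * 39) + 1 ≤ CC c ^ (2 * e1) := by
        have : CC c ^ (2 * 39) < CC c ^ (2 * e1) :=
          Nat.pow_lt_pow_right (by omega) (by omega)
        omega
      have h12 : 39 ≤ ep c (s - 1) := le_ep2 hc (by omega)
      exact zero_or_ge2 (C := CC c) (e := ep c (s - 1)) (by omega) (by omega)
        (Nat.dvd_sub d2 d1)
  | RT v =>
    obtain ⟨h6, h7, -⟩ := H.RT s v (by omega) hk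
    have hs0 : 0 < s := by
      rcases Nat.eq_zero_or_pos s with h0 | h0
      · rw [h0] at hk
        exact absurd hk (HS.z v).2
      · exact h0
    obtain ⟨d1, d2⟩ := HS.RT v s (by omega) hk hcut
    have he : e1 ≤ ep c s := hep s (HS.low s hs0 (by omega) hcut)
    have hW : Wd c s = CC c ^ ep c s := rfl
    rw [hW] at d1 d2
    have hd : CC c ^ ep c s ∣ v - s := Nat.dvd_sub d2 d1
    have hle := Nat.le_of_dvd (by omega) hd
    simp only [toRegs, List.mem_singleton] at hr
    subst hr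
    refine ⟨⟨by omega, by omega, by omega, zero_or_ge2 (by omega) (by omega)
      (Nat.dvd_sub hd dvd_rfl)⟩, fun e _ _ h => ?_, fun _ _ _ h => by simp at h,
      fun _ _ _ _ h => by simp at h⟩
    simp only [Reg.RT.injEq] at h
    omega
  | RTh v =>
    obtain ⟨h6, h7, -⟩ := H.RTh s v (by omega) hk
    have hs0 : 0 < s := by
      rcases Nat.eq_zero_or_pos s with h0 | h0
      · rw [h0] at hk
        exact absurd hk (HS.z v).1
      · exact h0
    obtain ⟨d1, d2⟩ := HS.RTh v s (by omega) hk hcut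
    have he : e1 ≤ ep c s := hep s (HS.low s hs0 (by omega) hcut)
    have hW : Wd c s = CC c ^ ep c s := rfl
    rw [hW] at d1 d2
    have hd : CC c ^ ep c s ∣ v - s := Nat.dvd_sub d2 d1
    have hle := Nat.le_of_dvd (by omega) hd
    simp only [toRegs, List.mem_singleton] at hr
    subst hr
    refine ⟨⟨by omega, by omega, by omega, zero_or_ge2 (by omega) (by omega)
      (Nat.dvd_sub hd dvd_rfl)⟩, fun _ _ _ h => by simp at h, fun e _ _ h => ?_,
      fun _ _ _ _ h => by simp at h⟩
    simp only [Reg.RTh.injEq] at h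
    omega

/-- **the regions below the zone are well placed** -/
theorem regOk2_body {e1 : ℕ} (hc : 20 ≤ c) (h40 : 40 ≤ e1)
    (hk1 : ∀ e, e1 ≤ e → 4 * c ≤ kk e + 10) (H : KidOK c t) (HS : KidSize c t)
    (HT : TopOK c t) (ht : CC c ^ (2 * e1 + 4) ≤ t) {r : Reg2} (hr : r ∈ body c t) :
    RegOk2 c t r := by
  have hC20 := four_le_CC2 hc
  have hepo := le_epo2 hc ht
  obtain ⟨hs1, hs2, -⟩ := HT.sbt
  obtain ⟨hw1, -⟩ := HT.wn1
  obtain ⟨hz1, -⟩ := HT.zb1
  have hzt : zb c t ≤ t := by omega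
  have hep : ∀ s, wb c t ≤ s → s ≤ t → e1 ≤ ep c s := fun s h1 h2 => by
    have := (HT.ep s h1 h2).1
    omega
  unfold body at hr
  rw [List.mem_flatMap] at hr
  obtain ⟨⟨k, s, e⟩, hq, hr⟩ := hr
  have hrun := isRun_of_mem' _ hq
  obtain ⟨-, h2, h3, h4, h5, h6⟩ := hrun
  simp only at h2 h3 h4 h5 h6
  have hk := h4 s le_rfl h2
  have hsz : s < zb c t := by omega
  cases k with
  | old k =>
    simp only [toRegs2, List.mem_map] at hr
    obtain ⟨r', hr', rfl⟩ := hr
    refine regOk_old hc h40 H HS ht (k := k) (s := s) (e := e) ?_ hr'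
    have he : e ≤ wb c t := by
      have := (kid2_old (h4 (e - 1) (by omega) (by omega))).1
      omega
    refine ⟨Nat.zero_le _, h2, he, fun x hx1 hx2 => (kid2_old (h4 x hx1 hx2)).2, ?_, ?_⟩
    · rcases h5 with h5 | h5
      · exact Or.inl h5
      · refine Or.inr fun h => h5 ?_
        show kid2 c t (s - 1) = _
        have h : kid c t (s - 1) = k := h
        rw [kid2_lt (by omega), h]
    · show e = wb c t ∨ kid c t e ≠ k
      rcases Nat.eq_or_lt_of_le he with h7 | h7
      · exact Or.inl h7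
      · right
        intro h
        rcases h6 with h6 | h6
        · have := HT.wbz
          omega
        · exact h6 (by rw [kid2_lt h7, h])
  | T2 b =>
    obtain ⟨g1, g2, g3, g4, -⟩ := HT.T2 s b hsz hk
    have he := hep b (by omega) (by omega)
    have hW : Wd c b = CC c ^ ep c b := rfl
    simp only [toRegs2, List.mem_singleton] at hr
    subst hr
    refine ⟨⟨by omega, by omega, by omega, Or.inl (by omega)⟩, fun e _ _ h => ?_,
      fun _ _ _ h => by simp at h, fun _ _ _ _ h => by simp at h⟩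
    simp only [Reg.RT.injEq] at h
    omega
  | C2 b =>
    obtain ⟨g1, g2, g3, g4, -⟩ := HT.C2 s b hsz hk
    have he := hep b (by omega) (by omega)
    have hW : Wd c b = CC c ^ ep c b := rfl
    simp only [toRegs2, List.mem_singleton] at hr
    subst hr
    exact ⟨by omega, hk1 _ he, by omega⟩
  | mid f =>
    obtain ⟨g1, g2, g3, g4, -⟩ := HT.mid s f hsz hk
    have he := hep f (by omega) (by omega)
    have hW : Hd c f = hh c (ep c f) := rfl
    simp only [toRegs2, List.mem_singleton] at hr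
    subst hr
    exact ⟨by omega, by omega⟩
  | T1 f =>
    obtain ⟨-, g1, g2, g3, g4, -⟩ := HT.T1 s f hsz hk
    have he := hep f (by omega) (by omega)
    simp only [toRegs2, List.mem_singleton] at hr
    subst hr
    show 40 ≤ ep c f
    omega
  | C1 f =>
    obtain ⟨-, g1, g2, g3, g4, -⟩ := HT.C1 s f hsz hk
    have he := hep f (by omega) (by omega)
    simp only [toRegs2, List.mem_singleton] at hr
    subst hr
    show 40 ≤ ep c f
    omega
  | cell p =>
    obtain ⟨-, g1, g2, g3, g4, -⟩ := HT.cell s p hsz hk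
    have he := hep p (by omega) (by omega)
    simp only [toRegs2, List.mem_singleton] at hr
    subst hr
    exact ⟨ll_even hc (by omega), eight_le_ll hc (by omega)⟩

/-- **the defect of every region of every layout** -/
theorem dft_layL {Sd TK : ℕ → Finset ℕ} {e1 : ℕ} (hc : 20 ≤ c) (hS : SdOK Sd) (hB : SdBig Sd)
    (h40 : 40 ≤ e1) (hk1 : ∀ e, e1 ≤ e → 4 * c ≤ kk e + 10) (H : KidOK c t)
    (HS : KidSize c t) (HT : TopOK c t) (ht : CC c ^ (2 * e1 + 4) ≤ t)
    (hTK : 2 ^ ((t - wn c t) / 2) ≤ 2 ^ 4 * (TK t).card) {r : Reg2} (hr : r ∈ layL c t) :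
    Dft (2 * dq2 c t) (r.rg (mk2 c Sd TK)).len (r.rg (mk2 c Sd TK)).V := by
  unfold layL at hr
  rw [List.mem_append, List.mem_singleton] at hr
  rcases hr with hr | rfl
  · exact dft_reg2 hc hS hB (regOk2_body hc h40 hk1 H HS HT ht hr)
  · obtain ⟨hs1, hs2, -⟩ := HT.sbt
    obtain ⟨hw1, -⟩ := HT.wn1
    obtain ⟨hz1, -⟩ := HT.zb1
    have hepo := le_epo2 hc ht
    have he := (HT.ep (zb c t) HT.wbz (by omega)).1
    unfold zoneReg
    refine dft_zone hB (ll_even hc (by omega)) (four_le_ll hc (by omega)) (by omega) ?_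
    rw [hz1]
    exact hTK

/-- **the number of elements of a scale** -/
theorem cnt_lay {Sd TK : ℕ → Finset ℕ} {e1 a b0 b K : ℕ} (hc : 20 ≤ c) (hS : SdOK Sd)
    (hB : SdBig Sd) (h1 : 2 ^ (4 * c) ≤ e1) (H : KidOK c K) (HS : KidSize c K)
    (HT : TopOK c K) (hK : CC c ^ (2 * e1 + 4) ≤ K)
    (hTK : 2 ^ ((K - wn c K) / 2) ≤ 2 ^ 4 * (TK K).card)
    (hch : Chain 0 (lay (mk2 c Sd TK) c K) K)
    (hlen : (lay (mk2 c Sd TK) c K).length ≤ lenF a b0 c K)
    (hb : 2 * qq c * (2 * a + b0) ≤ b) :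
    cntF b K ≤ ((lay (mk2 c Sd TK) c K).map (fun r => r.V.card)).prod := by
  have h40 : 40 ≤ e1 := by
    refine le_trans ?_ h1
    calc 40 ≤ 2 ^ 80 := by norm_num
      _ ≤ 2 ^ (4 * c) := Nat.pow_le_pow_right (by norm_num) (by omega)
  refine le_trans ?_ (cnt_le2 hch hlen (q := 2 * dq2 c K) ?_)
  · unfold cntF
    refine Nat.pow_le_pow_right (by norm_num) ?_
    have h2 : lg c K ≤ Nat.log 2 K := by
      unfold lg
      exact Nat.log_anti_left (by norm_num) (le_trans (by norm_num) (four_le_CC2 hc))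
    have h3 : lenF a b0 c K ≤ (2 * a + b0) * (Nat.log 2 K + 1) := by
      unfold lenF
      have h4 : a * (lg c K + 2) ≤ a * (Nat.log 2 K + 2) := Nat.mul_le_mul_left _ (by omega)
      nlinarith [Nat.zero_le (a * Nat.log 2 K), Nat.zero_le (b0 * Nat.log 2 K)]
    have h5 : 2 * dq2 c K * lenF a b0 c K ≤ b * (Nat.log 2 K + 1) ^ 3 := by
      calc 2 * dq2 c K * lenF a b0 c K
          ≤ 2 * dq2 c K * ((2 * a + b0) * (Nat.log 2 K + 1)) := Nat.mul_le_mul_left _ h3
        _ = 2 * qq c * (2 * a + b0) * (Nat.log 2 K + 1) ^ 3 := by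
          unfold dq2
          ring
        _ ≤ _ := Nat.mul_le_mul_right _ hb
    omega
  · intro r hr
    unfold lay at hr
    rw [List.mem_map] at hr
    obtain ⟨r', hr', rfl⟩ := hr
    exact dft_layL hc hS hB h40 (fun e he => kk_large (h1.trans he)) H HS HT hK hTK hr'

end Pool.Agent.Helper32.E2T
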